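import Pool.Agent.KS6_46.WT.Tri

set_option autoImplicit false

/-! The closed subspace `K1` of `(ω₁·ω₁+1) × (ω₁+1)` has no canonical clopen selector. -/

open Ordinal Set Order Topology

namespace Pool.Agent.KS6_46.WT

open Pool.Agent.R736.SK

/-- the triangle `{(ω₁·a, b) : a ≤ b ≤ ω₁}` -/
def KA : Set (Ordinal.{0} × Ordinal.{0}) := {p | ∃ a, a ≤ p.2 ∧ p.2 ≤ ω₁ ∧ p.1 = ω₁ * a}

/-- the pieces `{(x, a+1) : ω₁·a < x ≤ ω₁·(a+1)}`, and the diagonal -/
def KB : Set (Ordinal.{0} × Ordinal.{0}) :=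
  {p | p.2 ≤ ω₁ ∧ p.1 ≤ ω₁ * p.2 ∧ ∀ a < p.2, ω₁ * a < p.1}

def K1 : Set (Ordinal.{0} × Ordinal.{0}) := KA ∪ KB

theorem ω₁_pos : (0 : Ordinal.{0}) < ω₁ := Ordinal.omega_pos 1

theorem cont_mul : Continuous (fun a : Ordinal.{0} => ω₁ * a) :=
  (isNormal_mul_right ω₁_pos).continuous

theorem mul_lt_iff {a b : Ordinal.{0}} : (ω₁ : Ordinal.{0}) * a < ω₁ * b ↔ a < b :=
  (isNormal_mul_right ω₁_pos).strictMono.lt_iff_lt

theorem mul_le_iff {a b : Ordinal.{0}} : (ω₁ : Ordinal.{0}) * a ≤ ω₁ * b ↔ a ≤ b :=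
  (isNormal_mul_right ω₁_pos).strictMono.le_iff_le

theorem mul_inj {a b : Ordinal.{0}} : (ω₁ : Ordinal.{0}) * a = ω₁ * b ↔ a = b :=
  (isNormal_mul_right ω₁_pos).strictMono.injective.eq_iff

theorem K1_le {p : Ordinal.{0} × Ordinal.{0}} (hp : p ∈ K1) : p.1 ≤ ω₁ * ω₁ ∧ p.2 ≤ ω₁ := by
  rcases hp with ⟨a, h1, h2, h3⟩ | ⟨h1, h2, h3⟩
  · exact ⟨h3 ▸ mul_le_iff.2 (h1.trans h2), h2⟩
  · exact ⟨h2.trans (mul_le_iff.2 h1), h1⟩

theorem isCompact_KA : IsCompact KA := by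
  have h1 : IsCompact (Set.Icc (0 : Ordinal.{0}) ω₁) := isCompact_Icc
  have h2 : IsCompact ({p : Ordinal.{0} × Ordinal.{0} | p.1 ≤ p.2 ∧ p.2 ≤ ω₁}) := by
    refine (h1.prod h1).of_isClosed_subset ?_ ?_
    · exact (isClosed_le continuous_fst continuous_snd).inter
        (isClosed_le continuous_snd continuous_const)
    · exact fun p hp => ⟨⟨zero_le, hp.1.trans hp.2⟩, ⟨zero_le, hp.2⟩⟩
  have h3 : KA = (fun p : Ordinal.{0} × Ordinal.{0} => (ω₁ * p.1, p.2)) ''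
      {p : Ordinal.{0} × Ordinal.{0} | p.1 ≤ p.2 ∧ p.2 ≤ ω₁} := by
    ext ⟨x, y⟩
    constructor
    · rintro ⟨a, h1, h2, h3⟩
      exact ⟨(a, y), ⟨h1, h2⟩, Prod.ext h3.symm rfl⟩
    · rintro ⟨⟨a, b⟩, ⟨h1, h2⟩, h3⟩
      simp only [Prod.mk.injEq] at h3
      obtain ⟨rfl, rfl⟩ := h3
      exact ⟨a, h1, h2, rfl⟩
  rw [h3]
  exact h2.image ((cont_mul.comp continuous_fst).prodMk continuous_snd)

theorem isClosed_KB : IsClosed KB := by
  have h1 : IsClosed {p : Ordinal.{0} × Ordinal.{0} | p.2 ≤ ω₁} :=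
    isClosed_le continuous_snd continuous_const
  have h2 : IsClosed {p : Ordinal.{0} × Ordinal.{0} | p.1 ≤ ω₁ * p.2} :=
    isClosed_le continuous_fst (cont_mul.comp continuous_snd)
  have h3 : IsClosed {p : Ordinal.{0} × Ordinal.{0} | ∀ a < p.2, ω₁ * a < p.1} := by
    rw [← isOpen_compl_iff]
    have h4 : {p : Ordinal.{0} × Ordinal.{0} | ∀ a < p.2, ω₁ * a < p.1}ᶜ =
        ⋃ a : Ordinal.{0}, (Set.Iio (ω₁ * a + 1)) ×ˢ (Set.Ioi a) := by
      ext p
      simp only [Set.mem_compl_iff, Set.mem_ofPred_eq, not_forall, not_lt, Set.mem_iUnion,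
        Set.mem_prod, Set.mem_Iio, Set.mem_Ioi, Order.lt_add_one_iff]
      constructor
      · rintro ⟨a, ha, hb⟩
        exact ⟨a, hb, ha⟩
      · rintro ⟨a, ha, hb⟩
        exact ⟨a, hb, ha⟩
    rw [h4]
    exact isOpen_iUnion fun a => isOpen_Iio.prod isOpen_Ioi
  exact h1.inter (h2.inter h3)

theorem isCompact_K1 : IsCompact K1 := by
  refine isCompact_KA.union ?_
  have h1 : IsCompact (Set.Icc (0 : Ordinal.{0}) (ω₁ * ω₁)) := isCompact_Icc
  have h2 : IsCompact (Set.Icc (0 : Ordinal.{0}) ω₁) := isCompact_Icc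
  refine (h1.prod h2).of_isClosed_subset isClosed_KB ?_
  intro p hp
  exact ⟨⟨zero_le, (K1_le (Or.inr hp)).1⟩, ⟨zero_le, (K1_le (Or.inr hp)).2⟩⟩

theorem isClosed_K1 : IsClosed K1 := isCompact_K1.isClosed

section
variable {X : Type} [TopologicalSpace X] (h : K1 ≃ₜ X)

/-- coordinates -/
def co (p : X) : Ordinal.{0} × Ordinal.{0} := (h.symm p).1

theorem co_cont : Continuous (co h) := continuous_subtype_val.comp h.symm.continuous

theorem co_inj : Function.Injective (co h) := Subtype.val_injective.comp h.symm.injective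

theorem memA (a b : Ordinal.{0}) : (ω₁ * min a (min b ω₁), min b ω₁) ∈ K1 :=
  Or.inl ⟨min a (min b ω₁), min_le_right _ _, min_le_right _ _, rfl⟩

noncomputable def xx (p : Ordinal.{0} × Ordinal.{0}) : X := h ⟨_, memA p.1 p.2⟩

theorem xx_cont : Continuous (xx h) := by
  refine h.continuous.comp (Continuous.subtype_mk ?_ _)
  exact (cont_mul.comp (continuous_fst.min (continuous_snd.min continuous_const))).prodMk
    (continuous_snd.min continuous_const)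

theorem co_xx {a b : Ordinal.{0}} (hab : a ≤ b) (hb : b ≤ ω₁) :
    co h (xx h (a, b)) = (ω₁ * a, b) := by
  simp [co, xx, min_eq_left hb, min_eq_left hab]

theorem memB {a : Ordinal.{0}} (ha : a < ω₁) (ξ : Ordinal.{0}) :
    (ω₁ * a + min ξ ω₁, a + 1) ∈ K1 := by
  have h1 : a + 1 ≤ ω₁ := Order.add_one_le_of_lt ha
  rcases (zero_le : 0 ≤ min ξ (ω₁ : Ordinal.{0})).eq_or_lt with h0 | h0
  · left
    refine ⟨a, (Order.lt_add_one_iff.2 le_rfl).le, h1, ?_⟩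
    simp [← h0]
  · right
    refine ⟨h1, ?_, fun a' ha' => ?_⟩
    · simp only [mul_add, mul_one]
      exact add_le_add_right (min_le_right _ _) _
    · have h2 : (ω₁ : Ordinal.{0}) * a' ≤ ω₁ * a := mul_le_iff.2 (Order.lt_add_one_iff.1 ha')
      refine lt_of_le_of_lt h2 ?_
      exact lt_add_of_pos_right _ h0

noncomputable def yy {a : Ordinal.{0}} (ha : a < ω₁) (ξ : Ordinal.{0}) : X := h ⟨_, memB ha ξ⟩

theorem yy_cont {a : Ordinal.{0}} (ha : a < ω₁) : Continuous (yy h ha) := by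
  refine h.continuous.comp (Continuous.subtype_mk ?_ _)
  exact ((isNormal_add_right (ω₁ * a)).continuous.comp
    (continuous_id.min continuous_const)).prodMk continuous_const

theorem co_yy {a : Ordinal.{0}} (ha : a < ω₁) {ξ : Ordinal.{0}} (hξ : ξ ≤ ω₁) :
    co h (yy h ha ξ) = (ω₁ * a + ξ, a + 1) := by
  simp [co, yy, min_eq_left hξ]

theorem yy_top {a : Ordinal.{0}} (ha : a < ω₁) : yy h ha ω₁ = xx h (a + 1, a + 1) := by
  apply co_inj h
  rw [co_yy h ha le_rfl, co_xx h le_rfl (Order.add_one_le_of_lt ha), mul_add, mul_one]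

/-- a point `yy a x` of a neighbourhood -/
theorem LY {a : Ordinal.{0}} (ha : a < ω₁) {W : Set X} (hW : IsOpen W) {b : Ordinal.{0}}
    (hb : 0 < b) (hm : yy h ha b ∈ W) : ∃ g < b, ∀ v, g < v → v ≤ b → yy h ha v ∈ W := by
  have h1 : (yy h ha) ⁻¹' W ∈ 𝓝 b := (hW.preimage (yy_cont h ha)).mem_nhds hm
  obtain ⟨g, hg, hs⟩ := exists_Ioc_subset_of_mem_nhds h1 ⟨0, hb⟩
  exact ⟨g, hg, fun v h2 h3 => hs ⟨h2, h3⟩⟩

theorem R1 {a : Ordinal.{0}} (ha : a < ω₁) (α : Ordinal.{0}) :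
    ∀ d, 0 < d → ω ^ α * d ≤ ω₁ → yy h ha (ω ^ α * d) ∈ cb X α := by
  induction α using Ordinal.limitRecOn with
  | zero => intro d _ _; rw [cb_zero]; trivial
  | add_one α ih =>
    intro d hd hle
    have e1 : (ω : Ordinal.{0}) ^ (α + 1) * d = ω ^ α * (ω * d) := by
      rw [opow_add, opow_one, mul_assoc]
    have hωd : Order.IsSuccLimit ((ω : Ordinal.{0}) * d) := isSuccLimit_mul_left isSuccLimit_omega0 hd
    have hpos : 0 < (ω : Ordinal.{0}) ^ α := opow_pos _ omega0_pos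
    rw [e1] at hle ⊢
    rw [cb_succ]
    refine ⟨ih _ (mul_pos omega0_pos hd) hle, fun V hV hxV => ?_⟩
    obtain ⟨g, hg, hgV⟩ := LY h ha hV (mul_pos hpos (mul_pos omega0_pos hd)) hxV
    obtain ⟨d', hd', hgd⟩ := (lt_mul_iff_of_isSuccLimit hωd).1 hg
    have hlt : (ω : Ordinal.{0}) ^ α * d' < ω ^ α * (ω * d) :=
      (isNormal_mul_right hpos).strictMono hd'
    have hd0 : 0 < d' := by
      rcases (zero_le : 0 ≤ d').eq_or_lt with h0 | h0
      · rw [← h0, mul_zero] at hgd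
        exact absurd hgd not_lt_zero
      · exact h0
    refine ⟨yy h ha (ω ^ α * d'), ih d' hd0 (hlt.le.trans hle), hgV _ hgd hlt.le, fun heq => ?_⟩
    have h3 := congrArg (co h) heq
    rw [co_yy h ha (hlt.le.trans hle), co_yy h ha hle] at h3
    have h4 := congrArg Prod.fst h3
    exact hlt.ne ((isNormal_add_right (ω₁ * a)).strictMono.injective h4)
  | limit α hα ih =>
    intro d hd hle
    rw [cb_limit hα]
    refine Set.mem_iInter₂.2 fun β hβ => ?_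
    have e1 : (ω : Ordinal.{0}) ^ α * d = ω ^ β * (ω ^ (α - β) * d) := by
      rw [← mul_assoc, ← opow_add, Ordinal.add_sub_cancel_of_le hβ.le]
    rw [e1] at hle ⊢
    exact ih β hβ _ (mul_pos (opow_pos _ omega0_pos) hd) hle

theorem hlim : ∀ x < (ω₁ : Ordinal.{0}), x + 1 < ω₁ := fun x hx => by
  have := (Cardinal.isSuccLimit_omega 1).succ_lt hx
  rwa [Order.succ_eq_add_one] at this

theorem R1' {a : Ordinal.{0}} (ha : a < ω₁) {α : Ordinal.{0}} (hα : α < ω₁) :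
    xx h (a + 1, a + 1) ∈ cb X α := by
  have hT1 : T1Space X := h.t1Space
  rw [← yy_top h ha]
  by_contra hcon
  obtain ⟨g, hg, hg'⟩ := LY h ha (isClosed_cb α).isOpen_compl ω₁_pos hcon
  have h1 : (ω : Ordinal.{0}) ^ α < ω₁ := isPrincipal_opow_omega 1 omega0_lt_omega_one hα
  have h2 : (ω : Ordinal.{0}) ^ α * (g + 1) < ω₁ := isPrincipal_mul_omega 1 h1 (hlim g hg)
  have h3 : g < (ω : Ordinal.{0}) ^ α * (g + 1) :=
    lt_of_lt_of_le (Order.lt_add_one_iff.2 le_rfl) (le_mul_right _ (opow_pos _ omega0_pos))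
  exact hg' _ h3 h2.le (R1 h ha α (g + 1) (Order.lt_add_one_iff.2 zero_le) h2.le)

theorem R1'' {z : Ordinal.{0}} (hz0 : 0 < z) (hz : ∀ a < z, a + 1 < z) (hz1 : z < ω₁)
    {α : Ordinal.{0}} (hα : α < ω₁) : xx h (z, z) ∈ cb X α := by
  have hT1 : T1Space X := h.t1Space
  by_contra hcon
  obtain ⟨g, hg, hg'⟩ := L3 (xx_cont h) (isClosed_cb α).isOpen_compl hz0 hcon
  have h1 := (Order.lt_add_one_iff.2 le_rfl : g < g + 1)
  exact hg' (g + 1) (g + 1) h1 (hz g hg).le h1 (hz g hg).le (R1' h (hg.trans hz1) hα)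

theorem R2 {z b : Ordinal.{0}} (hzb : z < b) (hb : b < ω₁) :
    ∃ γ < ω₁, xx h (z, b) ∉ cb X γ := by
  have hN : IsOpen ({q : X | co h q ≤ (ω₁ * z, b)} ∩ {q : X | z < (co h q).2}) :=
    (open_le (co_cont h) _).inter (isOpen_lt continuous_const (continuous_snd.comp (co_cont h)))
  refine countable_height (co_cont h) (co_inj h) hN ?_ _ ⟨?_, ?_⟩
  · have c1 := countable_Iic (hzb.trans hb)
    have c2 := countable_Iic hb
    have hc : (Set.range (fun p : Set.Iic z × Set.Iic b =>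
        ((ω₁ * p.1.1, p.2.1) : Ordinal.{0} × Ordinal.{0}))).Countable := Set.countable_range _
    refine (hc.preimage (co_inj h)).mono ?_
    rintro q ⟨hq1, hq2⟩
    have hq3 : co h q ∈ K1 := (h.symm q).2
    have hq4 : (co h q).1 ≤ ω₁ * z := hq1.1
    have hq5 : (co h q).2 ≤ b := hq1.2
    rcases hq3 with ⟨a, h1, h2, h3⟩ | ⟨h1, h2, h3⟩
    · rw [h3] at hq4
      exact ⟨(⟨a, mul_le_iff.1 hq4⟩, ⟨_, hq5⟩), Prod.ext h3.symm rfl⟩
    · exact absurd (h3 z hq2) (not_lt.2 hq4)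
  · show co h (xx h (z, b)) ≤ _
    rw [co_xx h hzb.le hb.le]
  · show z < (co h (xx h (z, b))).2
    rw [co_xx h hzb.le hb.le]
    exact hzb

include h in
theorem core2 : ¬ CanonicallySkula X := by
  rintro ⟨U, hU, hcan⟩
  obtain ⟨z, b, hz0, hz, hzb, hb, hmem⟩ := triangle (xx_cont h) hU
  obtain ⟨α, hα1, hα2⟩ := height (co_cont h) (co_inj h) (xx h (z, b))
  obtain ⟨γ, hγ, hγ'⟩ := R2 h hzb hb
  have hαγ : α < γ := by
    by_contra hle
    exact hγ' (cb_antitone (not_lt.1 hle) hα1)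
  have h1 := R1'' h hz0 hz (hzb.trans hb) (hαγ.trans hγ)
  have h2 := hcan _ α hα1 hα2 _ hmem h1
  have h3 := congrArg (co h) h2
  rw [co_xx h le_rfl (hzb.trans hb).le, co_xx h hzb.le hb.le] at h3
  exact hzb.ne (congrArg (fun t => t.2) h3)

end

end Pool.Agent.KS6_46.WT
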