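import Pool.Graph.R_seed8.R736.SK.Defs
import Pool.Graph.R_seed8.R736.SK.Ord

set_option autoImplicit false

/-! Clopen selectors on spaces containing a continuous image of the triangle `{a ≤ b ≤ ω₁}`. The
proof of `triangle` follows the library file `R_seed8/R736/SK/Core.lean`. -/

open Ordinal Set Order Topology

namespace Pool.Agent.KS6_46.WT

open Pool.Agent.R736.SK

section
variable {X : Type} [TopologicalSpace X] {xx : Ordinal.{0} × Ordinal.{0} → X} (hxx : Continuous xx)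
include hxx

theorem L1 {W : Set X} (hW : IsOpen W) {a b : Ordinal.{0}} (hb : 0 < b) (hm : xx (a, b) ∈ W) :
    ∃ g < b, ∀ v, g < v → v ≤ b → xx (a, v) ∈ W := by
  have h1 : (fun v => xx (a, v)) ⁻¹' W ∈ 𝓝 b := by
    apply (hW.preimage (hxx.comp (by fun_prop : Continuous fun v => (a, v)))).mem_nhds
    exact hm
  obtain ⟨g, hg, hs⟩ := exists_Ioc_subset_of_mem_nhds h1 ⟨0, hb⟩
  exact ⟨g, hg, fun v h2 h3 => hs ⟨h2, h3⟩⟩

theorem L2 {W : Set X} (hW : IsOpen W) {a b : Ordinal.{0}} (ha : 0 < a) (hm : xx (a, b) ∈ W) :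
    ∃ g < a, ∀ v, g < v → v ≤ a → xx (v, b) ∈ W := by
  have h1 : (fun v => xx (v, b)) ⁻¹' W ∈ 𝓝 a := by
    apply (hW.preimage (hxx.comp (by fun_prop : Continuous fun v => (v, b)))).mem_nhds
    exact hm
  obtain ⟨g, hg, hs⟩ := exists_Ioc_subset_of_mem_nhds h1 ⟨0, ha⟩
  exact ⟨g, hg, fun v h2 h3 => hs ⟨h2, h3⟩⟩

theorem L3 {W : Set X} (hW : IsOpen W) {z : Ordinal.{0}} (hz : 0 < z) (hm : xx (z, z) ∈ W) :
    ∃ g < z, ∀ u v, g < u → u ≤ z → g < v → v ≤ z → xx (u, v) ∈ W := by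
  have h1 : xx ⁻¹' W ∈ 𝓝 (z, z) := (hW.preimage hxx).mem_nhds hm
  rw [nhds_prod_eq, Filter.mem_prod_iff] at h1
  obtain ⟨s, hs, t, ht, hst⟩ := h1
  obtain ⟨g, hg, hsg⟩ := exists_Ioc_subset_of_mem_nhds hs ⟨0, hz⟩
  obtain ⟨g', hg', htg⟩ := exists_Ioc_subset_of_mem_nhds ht ⟨0, hz⟩
  refine ⟨max g g', max_lt hg hg', fun u v h2 h3 h4 h5 => hst ⟨?_, ?_⟩⟩
  · exact hsg ⟨lt_of_le_of_lt (le_max_left _ _) h2, h3⟩
  · exact htg ⟨lt_of_le_of_lt (le_max_right _ _) h4, h5⟩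

/-- Every clopen selector has `(z,z) ∈ U (z,b)` for some limit `z < b < ω₁`. -/
theorem triangle {U : X → Set X} (hU : IsClopenSelector U) :
    ∃ z b : Ordinal.{0}, 0 < z ∧ (∀ a < z, a + 1 < z) ∧ z < b ∧ b < ω₁ ∧
      xx (z, z) ∈ U (xx (z, b)) := by
  have hlim : ∀ x < (ω₁ : Ordinal.{0}), x + 1 < ω₁ := fun x hx => by
    have := (Cardinal.isSuccLimit_omega 1).succ_lt hx
    rwa [Order.succ_eq_add_one] at this
  -- Step 1
  have step1 : ∀ a : Ordinal.{0}, ∃ γ : Ordinal.{0}, a < ω₁ → (γ < ω₁ ∧ ∀ β < ω₁, ∃ b, β < b ∧ b < ω₁ ∧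
      ∀ v, a ≤ v → γ < v → v ≤ b → xx (a, v) ∈ U (xx (a, b))) := by
    intro a
    by_cases ha : a < ω₁
    swap
    · exact ⟨0, fun h' => absurd h' ha⟩
    by_contra hcon
    push Not at hcon
    have h1 : ∀ γ : Ordinal.{0}, ∃ β : Ordinal.{0}, γ < ω₁ → (β < ω₁ ∧ ∀ b, β < b → b < ω₁ →
        ∃ v, a ≤ v ∧ γ < v ∧ v ≤ b ∧ xx (a, v) ∉ U (xx (a, b))) := by
      intro γ
      by_cases hγ : γ < ω₁
      · obtain ⟨β, hβ⟩ := (hcon γ).2 hγ
        exact ⟨β, fun _ => hβ⟩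
      · exact ⟨0, fun h' => absurd h' hγ⟩
    choose H hH using h1
    obtain ⟨b, hb, hab, hs, hcl⟩ := exists_closure (fun x _ => H x) (fun x hx _ _ => (hH x hx).1) ha
    have hb0 : 0 < b := lt_of_le_of_lt zero_le hab
    obtain ⟨g, hg, hg'⟩ := L1 hxx (hU.clopen (xx (a, b))).isOpen hb0 (hU.mem _)
    obtain ⟨v, hv1, hv2, hv3, hv4⟩ := (hH g (hg.trans hb)).2 b (hcl g hg 0 hb0) hb
    exact hv4 (hg' v hv2 hv3)
  choose G hG using step1
  have hT : ∀ a β : Ordinal.{0}, ∃ b : Ordinal.{0}, a < ω₁ → β < ω₁ → (β < b ∧ b < ω₁ ∧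
      ∀ v, a ≤ v → G a < v → v ≤ b → xx (a, v) ∈ U (xx (a, b))) := by
    intro a β
    by_cases ha : a < ω₁
    · by_cases hβ : β < ω₁
      · obtain ⟨b, hb⟩ := (hG a ha).2 β hβ
        exact ⟨b, fun _ _ => hb⟩
      · exact ⟨0, fun _ h' => absurd h' hβ⟩
    · exact ⟨0, fun h' => absurd h' ha⟩
  choose T hT using hT
  -- closure points
  let Cl : Ordinal.{0} → Prop := fun b => b < ω₁ ∧ 0 < b ∧ (∀ a < b, a + 1 < b) ∧
    ∀ a < b, G a < b ∧ ∀ β < b, T a β < b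
  have hCl : ∀ a0 < (ω₁ : Ordinal.{0}), ∃ b, a0 < b ∧ Cl b := by
    intro a0 ha0
    obtain ⟨b, hb, hab, hs, hcl⟩ := exists_closure (fun x y => max (G x) (T x y))
      (fun x hx y hy => max_lt (hG x hx).1 (hT x y hx hy).2.1) ha0
    have hb0 : 0 < b := lt_of_le_of_lt zero_le hab
    refine ⟨b, hab, hb, hb0, fun a ha => ?_, fun a ha => ⟨?_, fun β hβ => ?_⟩⟩
    · have := hs a ha
      rwa [Order.succ_eq_add_one] at this
    · exact lt_of_le_of_lt (le_max_left _ _) (hcl a ha 0 hb0)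
    · exact lt_of_le_of_lt (le_max_right _ _) (hcl a ha β hβ)
  -- Step 2
  have step2 : ∀ b, Cl b → ∀ a < b, ∀ v, a ≤ v → G a < v → v ≤ b →
      xx (a, v) ∈ U (xx (a, b)) := by
    intro b hb a hab v hav hGv hvb
    rcases hvb.eq_or_lt with rfl | hvb
    · exact hU.mem _
    obtain ⟨g, hg, hg'⟩ := L1 hxx (hU.clopen (xx (a, b))).isOpen hb.2.1 (hU.mem _)
    have haω := hab.trans hb.1
    have hm : max g v < b := max_lt hg hvb
    obtain ⟨h1, h2, h3⟩ := hT a (max g v) haω (hm.trans hb.1)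
    have h4 : T a (max g v) < b := (hb.2.2.2 a hab).2 _ hm
    have h5 : xx (a, T a (max g v)) ∈ U (xx (a, b)) :=
      hg' _ (lt_of_le_of_lt (le_max_left _ _) h1) h4.le
    exact hU.trans _ _ h5 (h3 v hav hGv ((le_max_right _ _).trans h1.le))
  obtain ⟨z, -, hz⟩ := hCl 0 (Ordinal.omega_pos 1)
  obtain ⟨b, hzb, hb⟩ := hCl z hz.1
  refine ⟨z, b, hz.2.1, hz.2.2.1, hzb, hb.1, ?_⟩
  by_contra hcon
  obtain ⟨g1, hg1, hg1'⟩ := L3 hxx (W := (U (xx (z, b)))ᶜ)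
    (hU.clopen (xx (z, b))).isClosed.isOpen_compl hz.2.1 hcon
  obtain ⟨g2, hg2, hg2'⟩ := L2 hxx (hU.clopen (xx (z, b))).isOpen hz.2.1 (hU.mem _)
  set a := max g1 g2 + 1 with ha
  have haz : a < z := hz.2.2.1 _ (max_lt hg1 hg2)
  have hGa : G a < z := (hz.2.2.2 a haz).1
  set v := max a (G a + 1) with hv
  have hvz : v < z := max_lt haz (hz.2.2.1 _ hGa)
  have hag1 : g1 < a := lt_of_le_of_lt (le_max_left _ _) (Order.lt_add_one_iff.2 le_rfl)
  have hag2 : g2 < a := lt_of_le_of_lt (le_max_right _ _) (Order.lt_add_one_iff.2 le_rfl)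
  have h1 : xx (a, b) ∈ U (xx (z, b)) := hg2' a hag2 haz.le
  have h2 : xx (a, v) ∈ U (xx (a, b)) := step2 b hb a (haz.trans hzb) v (le_max_left _ _)
    (lt_of_lt_of_le (Order.lt_add_one_iff.2 le_rfl) (le_max_right _ _)) (hvz.trans hzb).le
  exact hg1' a v hag1 haz.le (lt_of_lt_of_le hag1 (le_max_left _ _)) hvz.le (hU.trans _ _ h1 h2)

end

/-! ### heights -/

section
variable {X : Type} [TopologicalSpace X] {co : X → Ordinal.{0} × Ordinal.{0}}
  (hco : Continuous co) (hinj : Function.Injective co)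
include hco

theorem open_le (t : Ordinal.{0} × Ordinal.{0}) : IsOpen {q : X | co q ≤ t} := by
  have h1 : {q : X | co q ≤ t} = co ⁻¹' (Set.Iio (t.1 + 1) ×ˢ Set.Iio (t.2 + 1)) := by
    ext q
    simp only [Set.mem_ofPred_eq, Set.mem_preimage, Set.mem_prod, Set.mem_Iio,
      Order.lt_add_one_iff]
    rfl
  rw [h1]
  exact (isOpen_Iio.prod isOpen_Iio).preimage hco

include hinj

/-- every point has a height -/
theorem height (p : X) : ∃ α, p ∈ cb X α ∧ p ∉ cb X (α + 1) := by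
  have key : ∀ t : Ordinal.{0} × Ordinal.{0}, ∀ p : X, co p = t →
      ∃ γ : Ordinal.{0}, p ∉ cb X γ := by
    intro t
    induction t using WellFoundedLT.induction with
    | _ t ih =>
      intro p hp
      have hq : ∀ q : X, ∃ γ : Ordinal.{0}, co q < t → q ∉ cb X γ := by
        intro q
        by_cases hlt : co q < t
        · obtain ⟨γ, hγ⟩ := ih _ hlt q rfl
          exact ⟨γ, fun _ => hγ⟩
        · exact ⟨0, fun h' => absurd h' hlt⟩
      choose g hg using hq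
      refine ⟨(⨆ q, g q) + 1, fun hmem => ?_⟩
      rw [cb_succ] at hmem
      obtain ⟨q, hq1, hq2, hne⟩ := hmem.2 _ (open_le hco t) (le_of_eq hp)
      have hlt : co q < t := lt_of_le_of_ne hq2 fun h3 => hne (hinj (h3.trans hp.symm))
      exact hg q hlt (cb_antitone (Ordinal.le_iSup g q) hq1)
  obtain ⟨γ, hγ⟩ := key _ p rfl
  exact exists_height hγ

/-- a point with a countable neighbourhood has countable height -/
theorem countable_height {N : Set X} (hN : IsOpen N) (hc : N.Countable) (p : X) (hpN : p ∈ N) :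
    ∃ γ : Ordinal.{0}, γ < ω₁ ∧ p ∉ cb X γ := by
  have hlim : ∀ x < (ω₁ : Ordinal.{0}), x + 1 < ω₁ := fun x hx => by
    have := (Cardinal.isSuccLimit_omega 1).succ_lt hx
    rwa [Order.succ_eq_add_one] at this
  have key : ∀ t : Ordinal.{0} × Ordinal.{0}, ∀ p : X, p ∈ N → co p = t →
      ∃ γ : Ordinal.{0}, γ < ω₁ ∧ p ∉ cb X γ := by
    intro t
    induction t using WellFoundedLT.induction with
    | _ t ih =>
      intro p hpN hp
      have hq : ∀ q : N, ∃ γ : Ordinal.{0}, γ < ω₁ ∧ (co q.1 < t → q.1 ∉ cb X γ) := by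
        intro q
        by_cases hlt : co q.1 < t
        · obtain ⟨γ, hγ, h1⟩ := ih _ hlt q.1 q.2 rfl
          exact ⟨γ, hγ, fun _ => h1⟩
        · exact ⟨0, Ordinal.omega_pos 1, fun h' => absurd h' hlt⟩
      choose g hg1 hg using hq
      have : Countable N := hc.to_subtype
      refine ⟨(⨆ q, g q) + 1, hlim _ (Ordinal.iSup_lt_omega_one hg1), fun hmem => ?_⟩
      rw [cb_succ] at hmem
      obtain ⟨q, hq1, ⟨hq2, hqN⟩, hne⟩ := hmem.2 _ ((open_le hco t).inter hN) ⟨le_of_eq hp, hpN⟩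
      have hlt : co q < t := lt_of_le_of_ne hq2 fun h3 => hne (hinj (h3.trans hp.symm))
      exact hg ⟨q, hqN⟩ hlt (cb_antitone (Ordinal.le_iSup g ⟨q, hqN⟩) hq1)
  exact key _ p hpN rfl

end

end Pool.Agent.KS6_46.WT
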